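import Pool.Agent.H77.PG2

set_option autoImplicit false

namespace Pool.Agent.Results.MP_89ce39_al.EveryGroup

open Pool.Agent.H77.PG

universe u

/-- Every group is isomorphic to the `H`-class of an idempotent of `PG(P(S))` for some regular
`*`-semigroup `S`. -/
theorem result (G : Type u) [Group G] :
    ∃ (S : Type u) (_ : Semigroup S) (_ : StarMul S), (∀ a : S, a * star a * a = a) ∧
      ∃ (e : PGS S) (φ : G →ₙ* PGS S), e * e = e ∧ Function.Injective φ ∧
        ∀ a, a ∈ Set.range φ ↔ HRel a e :=
  main G

end Pool.Agent.Results.MP_89ce39_al.EveryGroup
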